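import Mathlib

/-!
An even symmetric function, positive on the unit sphere of `ℓ ^ 2`, no product of which with a
power of `p_2` has nonnegative coefficients in the monomial symmetric functions.
-/

namespace Pool.Agent.Results.MP_2f3180_ag.NoUniform

open MvPolynomial

/-- The even symmetric function `g (p_2, p_4, p_6, …)`, given by the polynomial `g` in which the
variable with index `j` stands for the power sum `p_(2 j + 2)`, truncated to `n` variables. -/
noncomputable def trunc (g : MvPolynomial ℕ ℝ) (n : ℕ) : MvPolynomial (Fin n) ℝ :=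
  aeval (fun j : ℕ => psum (Fin n) ℝ (2 * j + 2)) g

/-- The power sum of order `k` of a real sequence. -/
noncomputable def ps (k : ℕ) (x : ℕ → ℝ) : ℝ := ∑' i, x i ^ k

/-- The value at the sequence `x` of the even symmetric function given by `g`. -/
noncomputable def value (g : MvPolynomial ℕ ℝ) (x : ℕ → ℝ) : ℝ :=
  eval (fun j : ℕ => ps (2 * j + 2) x) g

/-- The unit sphere of `ℓ ^ 2`. -/
def S : Set (ℕ → ℝ) := {x | Summable (fun i => x i ^ 2) ∧ ps 2 x = 1}

/-- `p_2 ^ k * g (p_2, p_4, …)`, which has degree `2 d + 2 k`, is a linear combination with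
nonnegative coefficients of the monomial symmetric functions of the partitions of `2 d + 2 k`
with all parts even (an identity of symmetric functions holds if and only if it holds for all
truncations to finitely many variables). -/
def MonomialNonneg (g : MvPolynomial ℕ ℝ) (d k : ℕ) : Prop :=
  ∃ c : (2 * d + 2 * k).Partition → ℝ, (∀ μ, 0 ≤ c μ) ∧ (∀ μ, c μ ≠ 0 → ∀ i ∈ μ.parts, Even i) ∧
    ∀ n : ℕ, psum (Fin n) ℝ 2 ^ k * trunc g n = ∑ μ, c μ • msymm (Fin n) ℝ μ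

/-- `p_4 p_8 - p_6 ^ 2 + (p_6 - 2 / 3 p_2 p_4) ^ 2` -/
noncomputable def gg : MvPolynomial ℕ ℝ :=
  X 1 * X 3 - X 2 ^ 2 + (X 2 - C (2 / 3) * (X 0 * X 1)) ^ 2

theorem gg_homog : IsWeightedHomogeneous (fun j : ℕ => 2 * j + 2) gg (2 * 6) := by
  have h : ∀ j : ℕ, IsWeightedHomogeneous (fun j : ℕ => 2 * j + 2) (X j : MvPolynomial ℕ ℝ)
      (2 * j + 2) := fun j => isWeightedHomogeneous_X ℝ _ j
  unfold gg
  refine IsWeightedHomogeneous.add (IsWeightedHomogeneous.sub ?_ ?_) ?_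
  · exact (h 1).mul (h 3)
  · exact (h 2).pow 2
  · have h3 : IsWeightedHomogeneous (fun j : ℕ => 2 * j + 2)
        (X 2 - C (2 / 3) * (X 0 * X 1) : MvPolynomial ℕ ℝ) 6 := by
      refine (h 2).sub ?_
      have := (isWeightedHomogeneous_C (fun j : ℕ => 2 * j + 2) (2 / 3 : ℝ)).mul
        ((h 0).mul (h 1))
      simpa using this
    exact h3.pow 2

theorem value_gg (x : ℕ → ℝ) :
    value gg x = ps 4 x * ps 8 x - ps 6 x ^ 2 + (ps 6 x - 2 / 3 * (ps 2 x * ps 4 x)) ^ 2 := by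
  simp [value, gg]

theorem trunc_gg (n : ℕ) : trunc gg n = psum (Fin n) ℝ 4 * psum (Fin n) ℝ 8
    - psum (Fin n) ℝ 6 ^ 2
    + (psum (Fin n) ℝ 6 - C (2 / 3) * (psum (Fin n) ℝ 2 * psum (Fin n) ℝ 4)) ^ 2 := by
  simp [trunc, gg]

/-- positivity on the sphere -/
theorem value_pos {x : ℕ → ℝ} (hx : x ∈ S) : 0 < value gg x := by
  obtain ⟨hs, h1⟩ := hx
  rw [value_gg, h1, one_mul]
  -- squares
  set y : ℕ → ℝ := fun i => x i ^ 2 with hy
  have hy0 : ∀ i, 0 ≤ y i := fun i => sq_nonneg _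
  have e2 : ps 2 x = ∑' i, y i := rfl
  have e4 : ps 4 x = ∑' i, y i ^ 2 := by
    unfold ps; congr 1; funext i; simp only [hy]; ring
  have e6 : ps 6 x = ∑' i, y i ^ 3 := by
    unfold ps; congr 1; funext i; simp only [hy]; ring
  have e8 : ps 8 x = ∑' i, y i ^ 4 := by
    unfold ps; congr 1; funext i; simp only [hy]; ring
  rw [e2] at h1
  have hy1 : ∀ i, y i ≤ 1 := fun i => by
    rw [← h1]
    exact hs.le_tsum i fun j _ => hy0 j
  have s2 : Summable (fun i => y i ^ 2) :=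
    Summable.of_nonneg_of_le (fun i => by positivity)
      (fun i => by nlinarith [hy0 i, hy1 i]) hs
  have s3 : Summable (fun i => y i ^ 3) :=
    Summable.of_nonneg_of_le (fun i => pow_nonneg (hy0 i) 3)
      (fun i => by
        have : y i ^ 3 ≤ y i ^ 1 := pow_le_pow_of_le_one (hy0 i) (hy1 i) (by norm_num)
        simpa using this) hs
  have s4 : Summable (fun i => y i ^ 4) :=
    Summable.of_nonneg_of_le (fun i => pow_nonneg (hy0 i) 4)
      (fun i => by
        have : y i ^ 4 ≤ y i ^ 1 := pow_le_pow_of_le_one (hy0 i) (hy1 i) (by norm_num)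
        simpa using this) hs
  rw [e4, e6, e8]
  set q2 := ∑' i, y i ^ 2 with hq2
  set q3 := ∑' i, y i ^ 3 with hq3
  set q4 := ∑' i, y i ^ 4 with hq4
  have q2pos : 0 < q2 := by
    obtain ⟨i, hi⟩ : ∃ i, y i ≠ 0 := by
      by_contra h
      push Not at h
      have : (∑' i, y i) = 0 := by simp [h]
      rw [this] at h1
      exact zero_ne_one h1
    have : 0 < y i ^ 2 := by positivity
    exact s2.tsum_pos (fun j => by positivity) i this
  set l := q3 / q2 with hl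
  have key : ∑' i, (y i ^ 2 - l * y i) ^ 2 = q4 - 2 * l * q3 + l ^ 2 * q2 := by
    have : ∀ i, (y i ^ 2 - l * y i) ^ 2 = y i ^ 4 - 2 * l * y i ^ 3 + l ^ 2 * y i ^ 2 :=
      fun i => by ring
    simp only [this]
    rw [(s4.sub (s3.mul_left _)).tsum_add (s2.mul_left _), s4.tsum_sub (s3.mul_left _),
      tsum_mul_left, tsum_mul_left]
  have skey : Summable (fun i => (y i ^ 2 - l * y i) ^ 2) := by
    have : ∀ i, (y i ^ 2 - l * y i) ^ 2 = y i ^ 4 - 2 * l * y i ^ 3 + l ^ 2 * y i ^ 2 :=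
      fun i => by ring
    simp only [this]
    exact (s4.sub (s3.mul_left _)).add (s2.mul_left _)
  have hlq : l * q2 = q3 := by rw [hl]; field_simp
  have hT : q2 * q4 - q3 ^ 2 = q2 * ∑' i, (y i ^ 2 - l * y i) ^ 2 := by
    rw [key, ← hlq]; ring
  rw [hT]
  have hT0 : 0 ≤ ∑' i, (y i ^ 2 - l * y i) ^ 2 := tsum_nonneg fun i => sq_nonneg _
  by_contra hneg
  have hz : q2 * (∑' i, (y i ^ 2 - l * y i) ^ 2) + (q3 - 2 / 3 * q2) ^ 2 = 0 :=
    le_antisymm (not_lt.mp hneg) (by positivity)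
  have hz1 : ∑' i, (y i ^ 2 - l * y i) ^ 2 = 0 := by
    have h1 : q2 * (∑' i, (y i ^ 2 - l * y i) ^ 2) = 0 := by
      have := sq_nonneg (q3 - 2 / 3 * q2)
      have := mul_nonneg q2pos.le hT0
      linarith
    exact (mul_eq_zero.mp h1).resolve_left q2pos.ne'
  have hz2 : q3 - 2 / 3 * q2 = 0 := by
    rw [hz1, mul_zero, zero_add] at hz
    exact pow_eq_zero_iff (two_ne_zero) |>.mp hz
  have hl23 : l = 2 / 3 := by
    rw [hl, div_eq_iff q2pos.ne']
    linarith
  have hall : ∀ i, y i = 0 ∨ y i = 2 / 3 := by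
    intro i
    have h0 := (hasSum_zero_iff_of_nonneg (fun i => sq_nonneg (y i ^ 2 - l * y i))).mp
      (hz1 ▸ skey.hasSum)
    have h2 : (y i ^ 2 - l * y i) ^ 2 = 0 := congrFun h0 i
    have h3 : y i ^ 2 - l * y i = 0 := pow_eq_zero_iff (two_ne_zero) |>.mp h2
    have h4 : y i * (y i - 2 / 3) = 0 := by rw [← hl23]; linarith
    rcases mul_eq_zero.mp h4 with h | h
    · exact Or.inl h
    · exact Or.inr (by linarith)
  have hfin : {i | y i ≠ 0}.Finite := by
    have ht := hs.tendsto_cofinite_zero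
    have h5 := ht.eventually (gt_mem_nhds (show (0 : ℝ) < 1 / 2 by norm_num))
    rw [Filter.eventually_cofinite] at h5
    refine h5.subset fun i hi => ?_
    rcases hall i with h | h
    · exact absurd h hi
    · show ¬ y i < 1 / 2
      rw [h]; norm_num
  have hsum : (∑' i, y i) = ∑ i ∈ hfin.toFinset, y i := by
    refine tsum_eq_sum fun i hi => ?_
    by_contra h
    exact hi (hfin.mem_toFinset.mpr h)
  have hcard : ∑ i ∈ hfin.toFinset, y i = (hfin.toFinset.card : ℝ) * (2 / 3) := by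
    rw [Finset.sum_congr rfl (g := fun _ => (2 / 3 : ℝ)), Finset.sum_const, nsmul_eq_mul]
    intro i hi
    exact (hall i).resolve_left (hfin.mem_toFinset.mp hi)
  rw [hsum, hcard] at h1
  have h6 : ((2 * hfin.toFinset.card : ℕ) : ℝ) = (3 : ℕ) := by
    push_cast
    linarith
  have h7 := Nat.cast_injective h6
  omega

/-- a test point: one coordinate `2` and `2 M ^ 2` coordinates `1 / M` -/
noncomputable def pt (M : ℕ) : Fin (2 * M ^ 2 + 1) → ℝ := Fin.cons 2 (fun _ => 1 / (M : ℝ))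

/-- the same with the small coordinates removed -/
def pt0 (M : ℕ) : Fin (2 * M ^ 2 + 1) → ℝ := Fin.cons 2 (fun _ => 0)

theorem psum_pt (M j : ℕ) : eval (pt M) (psum (Fin (2 * M ^ 2 + 1)) ℝ j)
    = 2 ^ j + (2 * (M : ℝ) ^ 2) * (1 / (M : ℝ)) ^ j := by
  rw [psum, map_sum, Fin.sum_univ_succ]
  simp [pt]

theorem psum_pt0 (M j : ℕ) (hj : j ≠ 0) : eval (pt0 M) (psum (Fin (2 * M ^ 2 + 1)) ℝ j)
    = 2 ^ j := by
  rw [psum, map_sum, Fin.sum_univ_succ]
  simp [pt0, hj]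

theorem pt0_nonneg (M : ℕ) (i) : 0 ≤ pt0 M i := by
  refine Fin.cases ?_ (fun i => ?_) i
  · simp [pt0]
  · simp [pt0]

theorem pt0_le (M : ℕ) (i) : pt0 M i ≤ pt M i := by
  refine Fin.cases ?_ (fun i => ?_) i
  · simp [pt0, pt]
  · simp [pt0, pt]

theorem eval_pt (M k : ℕ) (hM : 0 < M) :
    eval (pt M) (psum (Fin (2 * M ^ 2 + 1)) ℝ 2 ^ k * trunc gg (2 * M ^ 2 + 1))
      ≤ 6 ^ k * (512 / (M : ℝ) ^ 2) := by
  have hM' : (M : ℝ) ≠ 0 := by exact_mod_cast hM.ne'
  have hM1 : (1 : ℝ) ≤ M := by exact_mod_cast hM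
  set ε : ℝ := 1 / (M : ℝ) ^ 2 with hε
  have hε0 : 0 < ε := by positivity
  have hε1 : ε ≤ 1 := by
    rw [hε, div_le_one (by positivity)]
    nlinarith
  have e2 : eval (pt M) (psum (Fin (2 * M ^ 2 + 1)) ℝ 2) = 6 := by
    rw [psum_pt]; field_simp; norm_num
  have e4 : eval (pt M) (psum (Fin (2 * M ^ 2 + 1)) ℝ 4) = 16 + 2 * ε := by
    rw [psum_pt, hε]; field_simp; ring
  have e6 : eval (pt M) (psum (Fin (2 * M ^ 2 + 1)) ℝ 6) = 64 + 2 * ε ^ 2 := by
    rw [psum_pt, hε]; field_simp; ring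
  have e8 : eval (pt M) (psum (Fin (2 * M ^ 2 + 1)) ℝ 8) = 256 + 2 * ε ^ 3 := by
    rw [psum_pt, hε]; field_simp; ring
  rw [trunc_gg]
  simp only [map_mul, map_add, map_sub, map_pow, eval_C, e2, e4, e6, e8]
  refine mul_le_mul_of_nonneg_left ?_ (by positivity)
  have : (16 + 2 * ε) * (256 + 2 * ε ^ 3) - (64 + 2 * ε ^ 2) ^ 2
      + (64 + 2 * ε ^ 2 - 2 / 3 * (6 * (16 + 2 * ε))) ^ 2
      = 512 * ε - 192 * ε ^ 2 + 4 * ε ^ 4 := by ring
  rw [this]
  have h512 : 512 / (M : ℝ) ^ 2 = 512 * ε := by rw [hε]; ring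
  rw [h512]
  have : ε ^ 4 ≤ ε ^ 2 := pow_le_pow_of_le_one hε0.le hε1 (by norm_num)
  have := sq_nonneg ε
  linarith

theorem eval_pt0 (M k : ℕ) :
    eval (pt0 M) (psum (Fin (2 * M ^ 2 + 1)) ℝ 2 ^ k * trunc gg (2 * M ^ 2 + 1))
      = 4 ^ k * (4096 / 9) := by
  rw [trunc_gg]
  simp only [map_mul, map_add, map_sub, map_pow, eval_C, psum_pt0 M 2 (by norm_num),
    psum_pt0 M 4 (by norm_num), psum_pt0 M 6 (by norm_num), psum_pt0 M 8 (by norm_num)]
  norm_num

theorem not_mono (k : ℕ) : ∃ n : ℕ, ∃ u v : Fin n → ℝ, (∀ i, 0 ≤ u i) ∧ (∀ i, u i ≤ v i) ∧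
    eval v (psum (Fin n) ℝ 2 ^ k * trunc gg n) < eval u (psum (Fin n) ℝ 2 ^ k * trunc gg n) := by
  refine ⟨2 * (2 * 6 ^ k) ^ 2 + 1, pt0 (2 * 6 ^ k), pt (2 * 6 ^ k), pt0_nonneg _, pt0_le _, ?_⟩
  refine lt_of_le_of_lt (eval_pt (2 * 6 ^ k) k (by positivity)) ?_
  rw [eval_pt0]
  have h6 : (1 : ℝ) ≤ 6 ^ k := one_le_pow₀ (by norm_num)
  have h4 : (1 : ℝ) ≤ 4 ^ k := one_le_pow₀ (by norm_num)
  have e : (6 : ℝ) ^ k * (512 / ((2 * 6 ^ k : ℕ) : ℝ) ^ 2) = 128 / 6 ^ k := by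
    push_cast
    field_simp
    norm_num
  rw [e]
  have : (128 : ℝ) / 6 ^ k ≤ 128 := div_le_self (by norm_num) h6
  linarith

theorem eval_mono_of_coeff {n : ℕ} {P : MvPolynomial (Fin n) ℝ} (hP : ∀ a, 0 ≤ coeff a P)
    {u v : Fin n → ℝ} (hu : ∀ i, 0 ≤ u i) (huv : ∀ i, u i ≤ v i) : eval u P ≤ eval v P := by
  rw [eval_eq', eval_eq']
  refine Finset.sum_le_sum fun a _ => mul_le_mul_of_nonneg_left ?_ (hP a)
  exact Finset.prod_le_prod (fun i _ => pow_nonneg (hu i) _)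
    fun i _ => pow_le_pow_left₀ (hu i) (huv i) _

theorem coeff_msymm_nonneg {n m : ℕ} (μ : m.Partition) (a : Fin n →₀ ℕ) :
    0 ≤ coeff a (msymm (Fin n) ℝ μ) := by
  rw [msymm, coeff_sum]
  refine Finset.sum_nonneg fun s _ => ?_
  have h : ∀ t : Multiset (Fin n), ∃ b : Fin n →₀ ℕ,
      (t.map (X : Fin n → MvPolynomial (Fin n) ℝ)).prod = monomial b 1 := by
    intro t
    induction t using Multiset.induction_on with
    | empty => exact ⟨0, by simp⟩
    | cons i t ih =>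
      obtain ⟨b, hb⟩ := ih
      refine ⟨Finsupp.single i 1 + b, ?_⟩
      rw [Multiset.map_cons, Multiset.prod_cons, hb, X, monomial_mul, one_mul]
  obtain ⟨b, hb⟩ := h (s.1 : Multiset (Fin n))
  calc (0 : ℝ) ≤ coeff a (monomial b (1 : ℝ)) := by
        rw [coeff_monomial]
        split_ifs <;> norm_num
    _ = _ := by rw [← hb]; rfl

theorem exists_neg (k : ℕ) : ∃ (n : ℕ) (a : Fin n →₀ ℕ),
    coeff a (psum (Fin n) ℝ 2 ^ k * trunc gg n) < 0 := by
  obtain ⟨n, u, v, hu, huv, h⟩ := not_mono k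
  by_contra hc
  push Not at hc
  exact absurd (eval_mono_of_coeff (hc n) hu huv) (not_le.mpr h)

theorem not_monomialNonneg (k : ℕ) : ¬ MonomialNonneg gg 6 k := by
  rintro ⟨c, hc, -, h⟩
  obtain ⟨n, a, ha⟩ := exists_neg k
  rw [h n, coeff_sum] at ha
  refine absurd ha (not_lt.mpr (Finset.sum_nonneg fun μ _ => ?_))
  rw [coeff_smul]
  exact mul_nonneg (hc μ) (coeff_msymm_nonneg μ a)

/-- There is an even homogeneous symmetric function, positive on the unit sphere of `ℓ ^ 2`,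
such that no product of it with a power of `p_2` is a combination with nonnegative coefficients
of monomial symmetric functions; each of these products has a negative coefficient. -/
theorem result : ∃ (d : ℕ) (g : MvPolynomial ℕ ℝ),
    IsWeightedHomogeneous (fun j : ℕ => 2 * j + 2) g (2 * d) ∧
    (∀ x ∈ S, 0 < value g x) ∧
    (∀ k : ℕ, ¬ MonomialNonneg g d k) ∧
    (∀ k : ℕ, ∃ (n : ℕ) (a : Fin n →₀ ℕ), coeff a (psum (Fin n) ℝ 2 ^ k * trunc g n) < 0) :=
  ⟨6, gg, gg_homog, fun _ hx => value_pos hx, not_monomialNonneg, exists_neg⟩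

end Pool.Agent.Results.MP_2f3180_ag.NoUniform
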